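import Pool.Agent.PFE.StmtsS

/-!
# Squad PFE, row SGT: the graded algebra of `N ⊗ X`
-/

open scoped BigOperators TensorProduct

set_option linter.unusedSectionVars false

noncomputable section

namespace Pool.Agent.PFE.H22

open Pool.Agent.PFC Pool.Agent.PFE

section one

variable {F V V1 C A S : Type} [Field F] [CommGroup V] [CommGroup V1] [Fintype V1]
  [CommGroup C] [Fintype C] [Ring A] [Algebra F A] [Ring S] [Algebra F S]

theorem tj_apply (α : V →* A) (i : V1 →* V) (σ : MulAut V1) (v : V1) (a : A) :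
    tj F α i σ v a = α (i v) * (a * α (i (σ v))⁻¹) := rfl

theorem mem_Nt (α : V →* A) (i : V1 →* V) (σ : MulAut V1) (a : A) :
    a ∈ Nt F α i σ ↔ ∀ v, tj F α i σ v a = a :=
  ⟨fun h v => h v (Subgroup.mem_top v), fun h v _ => h v⟩

theorem Tr_apply (α : V →* A) (i : V1 →* V) (σ : MulAut V1) (a : A) :
    Tr F α i σ a = ∑ v, tj F α i σ v a := by
  rw [Tr, LinearMap.sum_apply]

theorem tj_inv (α : V →* A) (i : V1 →* V) (σ : MulAut V1) (v : V1) (a : A) :
    tj F α i σ v (tj F α i σ v⁻¹ a) = a := by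
  have h : (tj F α i σ v * tj F α i σ v⁻¹) a = a := by
    rw [← map_mul, mul_inv_cancel, map_one]
    rfl
  exact h

theorem Tr_mem_It (α : V →* A) (i : V1 →* V) (σ : MulAut V1) (a : A) :
    Tr F α i σ a ∈ It F α i σ := Submodule.subset_span (Or.inl ⟨a, rfl⟩)

theorem sub_mem_It (α : V →* A) (i : V1 →* V) (σ : MulAut V1) (v : V1) {a : A}
    (ha : a ∈ Nt F α i σ) : α (i v) * a - a ∈ It F α i σ :=
  Submodule.subset_span (Or.inr ⟨v, a, ha, rfl⟩)

theorem q_zero {α : V →* A} {i : V1 →* V} {θ : C →* MulAut V1} {q : C → (A →ₗ[F] S)}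
    (hsg : SG F α i θ q) (c : C) {x : A} (hx : x ∈ Nt F α i (θ c)) (hx' : x ∈ It F α i (θ c)) :
    q c x = 0 := by
  classical
  have h1 : ∀ d, (Pi.single c x : C → A) d ∈ Nt F α i (θ d) := by
    intro d
    by_cases hd : d = c
    · subst hd
      rw [Pi.single_eq_same]
      exact hx
    · rw [Pi.single_eq_of_ne hd]
      exact Submodule.zero_mem _
  have h2 : ∀ d, (Pi.single c x : C → A) d ∈ It F α i (θ d) := by
    intro d
    by_cases hd : d = c
    · subst hd
      rw [Pi.single_eq_same]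
      exact hx'
    · rw [Pi.single_eq_of_ne hd]
      exact Submodule.zero_mem _
  have h3 := (hsg.ker _ h1).2 h2
  rw [Finset.sum_eq_single c] at h3
  · rwa [Pi.single_eq_same] at h3
  · intro d _ hd
    rw [Pi.single_eq_of_ne hd, map_zero]
  · intro h
    exact absurd (Finset.mem_univ c) h

end one

section raw

variable {F V V1 C A1 A2 B S : Type} [Field F] [CommGroup V] [CommGroup V1] [Fintype V1]
  [CommGroup C] [Fintype C] [Ring A1] [Algebra F A1] [Ring A2] [Algebra F A2]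
  [Ring B] [Algebra F B] [Ring S] [Algebra F S]

theorem tj_tmul {α1 : V →* A1} {α2 : V →* A2} {αY : V →* A1 ⊗[F] A2}
    (hY : ∀ v, αY v = α1 v ⊗ₜ[F] α2 v) (i : V1 →* V) (σ : MulAut V1) (v : V1) (a : A1) (x : A2) :
    tj F αY i σ v (a ⊗ₜ[F] x) = tj F α1 i σ v a ⊗ₜ[F] tj F α2 i σ v x := by
  rw [tj_apply, tj_apply, tj_apply, hY, hY, Algebra.TensorProduct.tmul_mul_tmul,
    Algebra.TensorProduct.tmul_mul_tmul]

theorem tj_map {α1 : V →* A1} {α2 : V →* A2} {αY : V →* A1 ⊗[F] A2}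
    (hY : ∀ v, αY v = α1 v ⊗ₜ[F] α2 v) (i : V1 →* V) (σ : MulAut V1) (v : V1) :
    tj F αY i σ v = TensorProduct.map (tj F α1 i σ v) (tj F α2 i σ v) := by
  apply TensorProduct.ext'
  intro a x
  rw [tj_tmul hY, TensorProduct.map_tmul]

/-- `a ⊗ x` is fixed -/
theorem tmul_mem {α1 : V →* A1} {α2 : V →* A2} {αY : V →* A1 ⊗[F] A2}
    (hY : ∀ v, αY v = α1 v ⊗ₜ[F] α2 v) (i : V1 →* V) (σ : MulAut V1) {a : A1} {x : A2}
    (ha : a ∈ Nt F α1 i σ) (hx : x ∈ Nt F α2 i σ) : a ⊗ₜ[F] x ∈ Nt F αY i σ := by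
  rw [mem_Nt] at *
  intro v
  rw [tj_tmul hY, ha v, hx v]

theorem Tr_left {α1 : V →* A1} {α2 : V →* A2} {αY : V →* A1 ⊗[F] A2}
    (hY : ∀ v, αY v = α1 v ⊗ₜ[F] α2 v) (i : V1 →* V) (σ : MulAut V1) {a : A1} (x : A2)
    (ha : a ∈ Nt F α1 i σ) : a ⊗ₜ[F] Tr F α2 i σ x = Tr F αY i σ (a ⊗ₜ[F] x) := by
  rw [Tr_apply, Tr_apply, TensorProduct.tmul_sum]
  refine Finset.sum_congr rfl fun v _ => ?_
  rw [tj_tmul hY, (mem_Nt _ _ _ _).1 ha v]

theorem Tr_right {α1 : V →* A1} {α2 : V →* A2} {αY : V →* A1 ⊗[F] A2}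
    (hY : ∀ v, αY v = α1 v ⊗ₜ[F] α2 v) (i : V1 →* V) (σ : MulAut V1) (a : A1) {x : A2}
    (hx : x ∈ Nt F α2 i σ) : Tr F α1 i σ a ⊗ₜ[F] x = Tr F αY i σ (a ⊗ₜ[F] x) := by
  rw [Tr_apply, Tr_apply, TensorProduct.sum_tmul]
  refine Finset.sum_congr rfl fun v _ => ?_
  rw [tj_tmul hY, (mem_Nt _ _ _ _).1 hx v]

/-- The coordinates of `B ⊗ M`. -/
def co {ι M : Type} [AddCommGroup M] [Module F M] (b : Module.Basis ι F B) (k : ι) :
    B ⊗[F] M →ₗ[F] M :=
  (TensorProduct.lid F M).toLinearMap ∘ₗ TensorProduct.map (b.coord k) LinearMap.id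

theorem co_tmul {ι M : Type} [AddCommGroup M] [Module F M] (b : Module.Basis ι F B) (k : ι)
    (b' : B) (m : M) : co b k (b' ⊗ₜ[F] m) = b.repr b' k • m := by
  rw [co, LinearMap.comp_apply, TensorProduct.map_tmul]
  exact TensorProduct.lid_tmul _ _

theorem sum_co {ι M : Type} [Fintype ι] [AddCommGroup M] [Module F M] (b : Module.Basis ι F B)
    (w : B ⊗[F] M) : ∑ k, b k ⊗ₜ[F] co b k w = w := by
  induction w using TensorProduct.induction_on with
  | zero => simp
  | tmul b' m =>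
    conv_rhs => rw [← b.sum_repr b', TensorProduct.sum_tmul]
    refine Finset.sum_congr rfl fun k _ => ?_
    rw [co_tmul, TensorProduct.tmul_smul, TensorProduct.smul_tmul']
  | add x y hx hy =>
    conv_rhs => rw [← hx, ← hy]
    rw [← Finset.sum_add_distrib]
    refine Finset.sum_congr rfl fun k _ => ?_
    rw [map_add, TensorProduct.tmul_add]

theorem co_map {ι M : Type} [AddCommGroup M] [Module F M] (b : Module.Basis ι F B) (k : ι)
    (f : M →ₗ[F] M) (w : B ⊗[F] M) :
    co b k (TensorProduct.map LinearMap.id f w) = f (co b k w) := by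
  induction w using TensorProduct.induction_on with
  | zero => simp
  | tmul b' m => rw [TensorProduct.map_tmul, co_tmul, co_tmul, LinearMap.id_apply, map_smul]
  | add x y hx hy => rw [map_add, map_add, map_add, map_add, hx, hy]

theorem eq_zero_of_sum {ι M : Type} [Fintype ι] [AddCommGroup M] [Module F M]
    (b : Module.Basis ι F B) (m : ι → M) (h : ∑ k, b k ⊗ₜ[F] m k = 0) (k : ι) : m k = 0 := by
  classical
  have h1 := congrArg (co b k) h
  rw [map_sum, map_zero, Finset.sum_eq_single k] at h1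
  · rwa [co_tmul, b.repr_self, Finsupp.single_eq_same, one_smul] at h1
  · intro l _ hl
    rw [co_tmul, b.repr_self, Finsupp.single_eq_of_ne (Ne.symm hl), zero_smul]
  · intro h
    exact absurd (Finset.mem_univ k) h

variable {α1 : V →* A1} {α2 : V →* A2} {αY : V →* A1 ⊗[F] A2} {i : V1 →* V}
  {θ : C →* MulAut V1} {β : C → (A1 →ₗ[F] B)} {s : C → (B →ₗ[F] A1)} {h : C → (A1 →ₗ[F] A1)}
  {q : C → (A2 →ₗ[F] S)}

theorem tr_of_beta (htb : TB F α1 i θ β s h) (c : C) {a : A1} (ha : a ∈ Nt F α1 i (θ c))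
    (h0 : β c a = 0) : a = Tr F α1 i (θ c) (h c a) := by
  have h1 := htb.hg c a
  rw [h0, map_zero, sub_zero] at h1
  rw [Tr_apply]
  conv_lhs => rw [h1]
  refine Finset.sum_congr rfl fun v _ => ?_
  rw [(mem_Nt _ _ _ _).1 ha v⁻¹]

/-- (b) -/
theorem decomp (hY : ∀ v, αY v = α1 v ⊗ₜ[F] α2 v) (htb : TB F α1 i θ β s h) {ι : Type}
    [Fintype ι] (b : Module.Basis ι F B) (c : C) {y : A1 ⊗[F] A2} (hy : y ∈ Nt F αY i (θ c)) :
    ∃ x : ι → A2, (∀ k, x k ∈ Nt F α2 i (θ c)) ∧ ∃ z,
      y = ∑ k, s c (b k) ⊗ₜ[F] x k + Tr F αY i (θ c) z := by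
  have hy' := (mem_Nt _ _ _ _).1 hy
  let w : B ⊗[F] A2 := TensorProduct.map (β c) LinearMap.id y
  have hw : ∀ v, TensorProduct.map LinearMap.id (tj F α2 i (θ c) v) w = w := by
    intro v
    have h1 : TensorProduct.map LinearMap.id (tj F α2 i (θ c) v) w =
        TensorProduct.map (β c) LinearMap.id (tj F αY i (θ c) v y) := by
      rw [tj_map hY]
      change ((TensorProduct.map LinearMap.id (tj F α2 i (θ c) v)) ∘ₗ
        (TensorProduct.map (β c) LinearMap.id)) y = ((TensorProduct.map (β c) LinearMap.id) ∘ₗ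
        (TensorProduct.map (tj F α1 i (θ c) v) (tj F α2 i (θ c) v))) y
      congr 1
      apply TensorProduct.ext'
      intro a x
      simp only [LinearMap.comp_apply, TensorProduct.map_tmul, LinearMap.id_apply]
      rw [htb.eb]
    rw [h1, hy' v]
  refine ⟨fun k => co b k w, fun k => ?_, TensorProduct.map (h c) LinearMap.id y, ?_⟩
  · rw [mem_Nt]
    intro v
    rw [← co_map, hw v]
  · have h1 : ∑ k, s c (b k) ⊗ₜ[F] co b k w = TensorProduct.map (s c) LinearMap.id w := by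
      conv_rhs => rw [← sum_co b w]
      rw [map_sum]
      refine Finset.sum_congr rfl fun k _ => ?_
      rw [TensorProduct.map_tmul, LinearMap.id_apply]
    have h2 : Tr F αY i (θ c) (TensorProduct.map (h c) LinearMap.id y) =
        ∑ v, tj F αY i (θ c) v (TensorProduct.map (h c) LinearMap.id
          (tj F αY i (θ c) v⁻¹ y)) := by
      rw [Tr_apply]
      refine Finset.sum_congr rfl fun v _ => ?_
      rw [hy' v⁻¹]
    rw [h1, h2]
    have key : ∀ y : A1 ⊗[F] A2, y = TensorProduct.map (s c) LinearMap.id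
        (TensorProduct.map (β c) LinearMap.id y) + ∑ v, tj F αY i (θ c) v
          (TensorProduct.map (h c) LinearMap.id (tj F αY i (θ c) v⁻¹ y)) := by
      intro y
      induction y using TensorProduct.induction_on with
      | zero => simp
      | tmul a x =>
        simp only [tj_tmul hY, TensorProduct.map_tmul, LinearMap.id_apply, tj_inv]
        rw [← TensorProduct.sum_tmul, ← htb.hg c a, ← TensorProduct.add_tmul]
        congr 1
        abel
      | add x y hx hy =>
        conv_lhs => rw [hx, hy]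
        simp only [map_add, Finset.sum_add_distrib]
        abel
    exact key y

theorem main (twl : Pool.Agent.PFE.S.TwlStmt) [FiniteDimensional F B]
    (hY : ∀ v, αY v = α1 v ⊗ₜ[F] α2 v) (htb : TB F α1 i θ β s h) (hsg : SG F α2 i θ q) :
    SG F αY i θ (fun c => TensorProduct.map (β c) (q c)) := by
  classical
  obtain ⟨-, -, t3, t4, -, t6, t7⟩ := twl.1 F V V1 (A1 ⊗[F] A2) αY i
  obtain ⟨-, -, u3, u4, -, -, -⟩ := twl.1 F V V1 A1 α1 i
  obtain ⟨-, -, -, w4, w5, -, -⟩ := twl.1 F V V1 A2 α2 i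
  let b := Module.finBasis F B
  have hQTr : ∀ c y, TensorProduct.map (β c) (q c) (Tr F αY i (θ c) y) = 0 := by
    intro c y
    induction y using TensorProduct.induction_on with
    | zero => simp
    | tmul a x =>
      have h1 : ∀ v, TensorProduct.map (β c) (q c) (tj F αY i (θ c) v (a ⊗ₜ[F] x)) =
          β c a ⊗ₜ[F] q c (tj F α2 i (θ c) v x) := by
        intro v
        rw [tj_tmul hY, TensorProduct.map_tmul, htb.eb]
      rw [Tr_apply, map_sum, Finset.sum_congr rfl fun v _ => h1 v, ← TensorProduct.tmul_sum,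
        ← map_sum, ← Tr_apply, q_zero hsg c (w5 _ _) (Tr_mem_It _ _ _ _), TensorProduct.tmul_zero]
    | add x y hx hy => rw [map_add, map_add, hx, hy, add_zero]
  have hβv : ∀ c v, ∀ a ∈ Nt F α1 i (θ c), β c (α1 (i v) * a) = β c a := by
    intro c v a ha
    have h1 : α1 (i v) ∈ Nt F α1 i (θ 1) := by
      have h2 := (u4 1 (i v) 1 u3).1
      rwa [mul_one, ← map_one θ] at h2
    have h2 := htb.mul 1 c (α1 (i v)) h1 a ha
    rwa [one_mul, htb.tv, one_mul] at h2
  have hqv : ∀ c v, ∀ x ∈ Nt F α2 i (θ c), q c (α2 (i v) * x) = q c x := by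
    intro c v x hx
    have h1 := q_zero hsg c (Submodule.sub_mem _ (w4 (θ c) (i v) x hx).1 hx)
      (sub_mem_It _ _ _ v hx)
    rwa [map_sub, sub_eq_zero] at h1
  have hQu : ∀ (c : C) (x : Fin (Module.finrank F B) → A2) (z : A1 ⊗[F] A2),
      TensorProduct.map (β c) (q c) (∑ k, s c (b k) ⊗ₜ[F] x k + Tr F αY i (θ c) z) =
        ∑ k, b k ⊗ₜ[F] q c (x k) := by
    intro c x z
    rw [map_add, hQTr, add_zero, map_sum]
    refine Finset.sum_congr rfl fun k _ => ?_
    rw [TensorProduct.map_tmul, htb.bs]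
  have hv : ∀ c v, ∀ y ∈ Nt F αY i (θ c), TensorProduct.map (β c) (q c) (αY (i v) * y) =
      TensorProduct.map (β c) (q c) y := by
    intro c v y hy
    obtain ⟨x, hx, z, hz⟩ := decomp hY htb b c hy
    have h1 : αY (i v) ∈ Nt F αY i 1 := by
      have h2 := (t4 1 (i v) 1 t3).1
      rwa [mul_one] at h2
    have h2 : TensorProduct.map (β c) (q c) (αY (i v) * Tr F αY i (θ c) z) = 0 := by
      rw [t6 1 (θ c) (αY (i v)) z h1, mul_one]
      exact hQTr c _
    rw [hz, hQu, mul_add, map_add, h2, add_zero, Finset.mul_sum, map_sum]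
    refine Finset.sum_congr rfl fun k _ => ?_
    rw [hY, Algebra.TensorProduct.tmul_mul_tmul, TensorProduct.map_tmul,
      hβv c v _ (htb.fs c (b k)), hqv c v _ (hx k), htb.bs]
  have hIt : ∀ c, ∀ a ∈ Nt F α1 i (θ c), ∀ x ∈ It F α2 i (θ c),
      a ⊗ₜ[F] x ∈ It F αY i (θ c) := by
    intro c a ha x hx
    have h1 : It F α2 i (θ c) ≤ (It F αY i (θ c)).comap (TensorProduct.mk F A1 A2 a) := by
      refine Submodule.span_le.2 ?_
      rintro _ (⟨m, rfl⟩ | ⟨v, x, hx, rfl⟩)
      · change a ⊗ₜ[F] Tr F α2 i (θ c) m ∈ It F αY i (θ c)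
        rw [Tr_left hY i _ m ha]
        exact Tr_mem_It _ _ _ _
      · change a ⊗ₜ[F] (α2 (i v) * x - x) ∈ It F αY i (θ c)
        have e : a ⊗ₜ[F] (α2 (i v) * x - x) = (αY (i v) * (a ⊗ₜ[F] x) - a ⊗ₜ[F] x) -
            (α1 (i v) * a - a) ⊗ₜ[F] (α2 (i v) * x) := by
          rw [hY, Algebra.TensorProduct.tmul_mul_tmul, TensorProduct.tmul_sub,
            TensorProduct.sub_tmul]
          abel
        rw [e]
        refine Submodule.sub_mem _ (sub_mem_It _ _ _ v (tmul_mem hY i _ ha hx)) ?_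
        have ha' : α1 (i v) * a - a ∈ Nt F α1 i (θ c) :=
          Submodule.sub_mem _ (u4 (θ c) (i v) a ha).1 ha
        have hb : β c (α1 (i v) * a - a) = 0 := by
          rw [map_sub, hβv c v a ha, sub_self]
        rw [tr_of_beta htb c ha' hb, Tr_right hY i _ _ (w4 (θ c) (i v) x hx).1]
        exact Tr_mem_It _ _ _ _
    exact h1 hx
  refine ⟨?_, ?_, ?_, ?_⟩
  · intro s'
    induction s' using TensorProduct.induction_on with
    | zero => exact ⟨0, fun c => Submodule.zero_mem _, by simp⟩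
    | tmul b' s0 =>
      obtain ⟨x, hx, hx'⟩ := hsg.sur s0
      refine ⟨fun c => s c b' ⊗ₜ[F] x c, fun c => tmul_mem hY i _ (htb.fs c b') (hx c), ?_⟩
      simp only [TensorProduct.map_tmul, htb.bs]
      rw [← TensorProduct.tmul_sum, hx']
    | add p r hp hr =>
      obtain ⟨a, ha, ha'⟩ := hp
      obtain ⟨a', h1, h2⟩ := hr
      refine ⟨a + a', fun c => Submodule.add_mem _ (ha c) (h1 c), ?_⟩
      simp only [Pi.add_apply, map_add, Finset.sum_add_distrib, ha', h2]
  · intro y hy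
    constructor
    · intro h0
      choose x hx z hz using fun c => decomp hY htb b c (hy c)
      have h1 : ∀ c, TensorProduct.map (β c) (q c) (y c) = ∑ k, b k ⊗ₜ[F] q c (x c k) := by
        intro c
        conv_lhs => rw [hz c]
        exact hQu c _ _
      have h2 : ∑ k, b k ⊗ₜ[F] (∑ c, q c (x c k)) = 0 := by
        rw [← h0]
        simp only [h1, TensorProduct.tmul_sum]
        exact Finset.sum_comm
      have h3 : ∀ k, ∑ c, q c (x c k) = 0 := eq_zero_of_sum b _ h2
      have h4 : ∀ k c, x c k ∈ It F α2 i (θ c) := fun k =>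
        (hsg.ker (fun c => x c k) (fun c => hx c k)).1 (h3 k)
      intro c
      rw [hz c]
      exact Submodule.add_mem _
        (Submodule.sum_mem _ fun k _ => hIt c _ (htb.fs c (b k)) _ (h4 k c)) (Tr_mem_It _ _ _ _)
    · intro h0
      refine Finset.sum_eq_zero fun c _ => ?_
      have hle : It F αY i (θ c) ≤ LinearMap.ker (TensorProduct.map (β c) (q c)) := by
        refine Submodule.span_le.2 ?_
        rintro _ (⟨m, rfl⟩ | ⟨v, y, hy, rfl⟩)
        · exact hQTr c m
        · change TensorProduct.map (β c) (q c) (αY (i v) * y - y) = 0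
          rw [map_sub, hv c v y hy, sub_self]
      exact hle (h0 c)
  · intro c d y hy y' hy'
    obtain ⟨x, hx, z, hz⟩ := decomp hY htb b c hy
    obtain ⟨x', hx', z', hz'⟩ := decomp hY htb b d hy'
    have hu : ∑ k, s c (b k) ⊗ₜ[F] x k ∈ Nt F αY i (θ c) :=
      Submodule.sum_mem _ fun k _ => tmul_mem hY i _ (htb.fs c (b k)) (hx k)
    have e1 : TensorProduct.map (β (c * d)) (q (c * d)) (Tr F αY i (θ c) z * y') = 0 := by
      rw [t7 (θ c) (θ d) z y' hy', ← map_mul, mul_comm d c]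
      exact hQTr (c * d) _
    have e2 : TensorProduct.map (β (c * d)) (q (c * d))
        ((∑ k, s c (b k) ⊗ₜ[F] x k) * Tr F αY i (θ d) z') = 0 := by
      rw [t6 (θ c) (θ d) _ z' hu, ← map_mul, mul_comm d c]
      exact hQTr (c * d) _
    have e3 : y * y' = (∑ k, s c (b k) ⊗ₜ[F] x k) * (∑ k, s d (b k) ⊗ₜ[F] x' k) +
        (∑ k, s c (b k) ⊗ₜ[F] x k) * Tr F αY i (θ d) z' + Tr F αY i (θ c) z * y' := by
      conv_lhs => rw [hz, add_mul]
      conv_lhs => arg 1; rw [hz', mul_add]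
    change TensorProduct.map (β (c * d)) (q (c * d)) (y * y') =
      TensorProduct.map (β c) (q c) y * TensorProduct.map (β d) (q d) y'
    rw [e3, map_add, map_add, e1, e2, add_zero, add_zero, hz, hz', hQu, hQu,
      Finset.sum_mul_sum, Finset.sum_mul_sum, map_sum]
    refine Finset.sum_congr rfl fun k _ => ?_
    rw [map_sum]
    refine Finset.sum_congr rfl fun l _ => ?_
    rw [Algebra.TensorProduct.tmul_mul_tmul, TensorProduct.map_tmul,
      Algebra.TensorProduct.tmul_mul_tmul, htb.mul c d _ (htb.fs c (b k)) _ (htb.fs d (b l)),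
      hsg.mul c d _ (hx k) _ (hx' l), htb.bs, htb.bs]
  · change TensorProduct.map (β 1) (q 1) (1 : A1 ⊗[F] A2) = 1
    rw [Algebra.TensorProduct.one_def, TensorProduct.map_tmul, htb.one, hsg.one,
      ← Algebra.TensorProduct.one_def]

end raw

/-- ROW SGT -/
theorem sgt : Pool.Agent.PFE.S.SgtStmt := by
  intro twl F V V1 C B S _ _ _ _ _ _ _ _ _ _ _ N X i θ β s h q htb hsg
  exact main twl (fun _ => rfl) htb hsg

end Pool.Agent.PFE.H22
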